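import Pool.Agent.helper66.FO.Fin
import Pool.Agent.helper32.NN.All
import Pool.Agent.helper29.FO.LTW
import Pool.Agent.helper9.FO.NFS
import Pool.Agent.helper98.FO.NFM

/-! # Project FO: algebras without multiplication operators of finite rank -/

set_option autoImplicit false

namespace Pool.Agent.FO

open Pool.Agent.NN Pool.Agent.PX

universe u v w

/-- no multiplication operators of finite rank. -/
theorem all_NFF (K : Type u) [Field K] [CharZero K] (A : Type v) [NonUnitalRing A] [Module K A]
    [IsScalarTower K A A] [SMulCommClass K A A] (hdim : 1 < Module.rank K A) (hprop : PropNil K A)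
    (A' : Type w) [NonUnitalRing A'] [Module K A'] [IsScalarTower K A' A'] [SMulCommClass K A' A']
    [Nontrivial A'] (π : A →ₙₐ[K] A') (hπ : Function.Surjective π)
    (hfin : ∀ (n : ℕ) (u v : Fin n → Unitization K A'),
      (∃ F : Submodule K (Unitization K A'), FiniteDimensional K F ∧
        ∀ x : A', ∑ i, u i * (Unitization.inr x : Unitization K A') * v i ∈ F) →
      ∀ x : A', ∑ i, u i * (Unitization.inr x : Unitization K A') * v i = 0) :
    Nilp A :=
  NFF all_TRA.{u, v} (NFM (NFS LTW.{u, max u v})) K A hdim hprop A' π hπ hfin

end Pool.Agent.FO
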