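import Pool.Agent.helper66.FO.Fin2
import Pool.Agent.helper66.PX.All
import Pool.Agent.helper8.FO.NZP
import Pool.Agent.helper47.FO.OPK

/-! # Project FO: identities up to finite rank -/

set_option autoImplicit false

namespace Pool.Agent.FO

open Pool.Agent.NN Pool.Agent.PX

universe u v w

/-- identities up to finite rank. -/
theorem all_FIR (K : Type u) [Field K] [CharZero K] (A : Type v) [NonUnitalRing A] [Module K A]
    [IsScalarTower K A A] [SMulCommClass K A A] (hdim : 1 < Module.rank K A) (hprop : PropNil K A)
    (A' : Type w) [NonUnitalRing A'] [Module K A'] [IsScalarTower K A' A'] [SMulCommClass K A' A']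
    [Nontrivial A'] (π : A →ₙₐ[K] A') (hπ : Function.Surjective π)
    (n : ℕ) (f g : Fin n → FreeAlgebra K ℕ) (hg : LinearIndependent K g) (hf : ∃ i, f i ≠ 0)
    (hid : ∀ x : ℕ → A', ∃ F : Submodule K (Unitization K A'), FiniteDimensional K F ∧
      ∀ y : A', ∑ i, FreeAlgebra.lift K (fun j => (Unitization.inr (x j) : Unitization K A')) (f i) *
        (Unitization.inr y : Unitization K A') *
        FreeAlgebra.lift K (fun j => (Unitization.inr (x j) : Unitization K A')) (g i) ∈ F) :
    Nilp A :=
  FIR all_TRA.{u, v} all_TKP.{u, max u v} all_GEN.{u, max u v} all_SQ.{u, max u v} CQ.{u, v}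
    ML.{u, max u v} OPK.{u, max u v} NZP.{u} K A hdim hprop A' π hπ n f g hg hf hid

end Pool.Agent.FO
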