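import Pool.Agent.helper66.FO.Spec
import Pool.Agent.helper66.PX.Fin

/-! # Project FO: final assembly -/

set_option autoImplicit false

noncomputable section

namespace Pool.Agent.FO

open Pool.Agent.NN Pool.Agent.PX

universe u v w

/-- finite dimension in the image: preimages are finitely generated modulo the kernel. -/
theorem FO_pre {K : Type u} {U : Type v} {U' : Type w} [Field K] [AddCommGroup U] [Module K U]
    [AddCommGroup U'] [Module K U'] (φ : U →ₗ[K] U') (F : Submodule K U') [FiniteDimensional K F] :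
    ∃ G : Submodule K U, G.FG ∧ F.comap φ ≤ G ⊔ LinearMap.ker φ := by
  classical
  have h1 : FiniteDimensional K (F ⊓ LinearMap.range φ : Submodule K U') :=
    Submodule.finiteDimensional_of_le inf_le_left
  have h2 : (F ⊓ LinearMap.range φ : Submodule K U').FG := Module.Finite.iff_fg.1 h1
  obtain ⟨t, ht⟩ := h2
  have h3 : ∀ r : t, ∃ x : U, φ x = r := by
    intro r
    have h4 : (r : U') ∈ (F ⊓ LinearMap.range φ : Submodule K U') := by
      rw [← ht]
      exact Submodule.subset_span r.2
    exact LinearMap.mem_range.1 h4.2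
  choose g hg using h3
  refine ⟨Submodule.span K (Set.range g), Submodule.fg_span (Set.finite_range g), ?_⟩
  intro x hx
  have h4 : φ x ∈ (F ⊓ LinearMap.range φ : Submodule K U') := ⟨hx, LinearMap.mem_range_self _ _⟩
  rw [← ht] at h4
  have h5 : Submodule.span K (t : Set U') ≤ (Submodule.span K (Set.range g)).map φ := by
    rw [Submodule.span_le]
    intro r hr
    exact ⟨g ⟨r, hr⟩, Submodule.subset_span ⟨_, rfl⟩, hg ⟨r, hr⟩⟩
  obtain ⟨y, hy, hyx⟩ := h5 h4
  rw [Submodule.mem_sup]
  refine ⟨y, hy, x - y, ?_, by abel⟩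
  rw [LinearMap.mem_ker, map_sub, hyx, sub_self]

/-- values of polynomials lie in the unitization of `𝒜`. -/
theorem FO_lift {K : Type u} {U : Type v} [Field K] [Ring U] [Algebra K U] (A : Submodule K U)
    (hAA : A * A ≤ A) (X : ℕ → U) (hX : ∀ i, X i ∈ A) (f : FreeAlgebra K ℕ) :
    FreeAlgebra.lift K X f ∈ (1 ⊔ A : Submodule K U) := by
  have h1 : (1 : Submodule K U) ≤ 1 ⊔ A := le_sup_left
  have h2 : A ≤ 1 ⊔ A := le_sup_right
  induction f using FreeAlgebra.induction with
  | grade0 r =>
    rw [AlgHom.commutes]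
    exact h1 (Submodule.mem_one.2 ⟨r, rfl⟩)
  | grade1 i =>
    rw [FreeAlgebra.lift_ι_apply]
    exact h2 (hX i)
  | mul a b ha hb =>
    rw [map_mul]
    have h3 : (1 ⊔ A : Submodule K U) * (1 ⊔ A) ≤ 1 ⊔ A := by
      rw [Submodule.mul_sup, Submodule.sup_mul, Submodule.sup_mul, one_mul, one_mul, mul_one]
      exact sup_le (sup_le h1 h2) (sup_le h2 (hAA.trans h2))
    exact h3 (Submodule.mul_mem_mul ha hb)
  | add a b ha hb =>
    rw [map_add]
    exact Submodule.add_mem _ ha hb

section
variable {K : Type u} [Field K] {A : Type v} [NonUnitalRing A] [Module K A] [IsScalarTower K A A]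
  [SMulCommClass K A A] {A' : Type w} [NonUnitalRing A'] [Module K A'] [IsScalarTower K A' A']
  [SMulCommClass K A' A']

/-- the homomorphism of the unitizations. -/
def FOhom (π : A →ₙₐ[K] A') : Unitization K A →ₐ[K] Unitization K A' :=
  ((Unitization.inrNonUnitalAlgHom K A').comp π).toAlgHom

theorem FOhom_apply (π : A →ₙₐ[K] A') (y : Unitization K A) :
    FOhom π y = algebraMap K _ y.fst + (Unitization.inr (π y.snd) : Unitization K A') := rfl

theorem FOhom_inr (π : A →ₙₐ[K] A') (y : A) :
    FOhom π (Unitization.inr y : Unitization K A) = (Unitization.inr (π y) : Unitization K A') := by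
  rw [FOhom_apply, Unitization.fst_inr, Unitization.snd_inr, map_zero, zero_add]

theorem FOhom_ker (π : A →ₙₐ[K] A') (y : Unitization K A) :
    FOhom π y = 0 ↔ y ∈ im K A (LinearMap.ker (π : A →ₗ[K] A')) := by
  rw [FOhom_apply, Unitization.algebraMap_eq_inl, FI_mem]
  have hk : y.snd ∈ LinearMap.ker (π : A →ₗ[K] A') ↔ π y.snd = 0 := LinearMap.mem_ker
  rw [hk]
  constructor
  · intro hy
    constructor
    · have := congrArg (fun z : Unitization K A' => z.fst) hy
      simpa using this
    · have := congrArg (fun z : Unitization K A' => z.snd) hy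
      simpa using this
  · rintro ⟨h1, h2⟩
    rw [h1, h2, Unitization.inl_zero, Unitization.inr_zero, add_zero]

/-- the kernel is a proper ideal. -/
theorem FO_ker (π : A →ₙₐ[K] A') (hπ : Function.Surjective π) [Nontrivial A'] :
    IsId (im K A ⊤) (im K A (LinearMap.ker (π : A →ₗ[K] A'))) ∧
      im K A (LinearMap.ker (π : A →ₗ[K] A')) ≠ im K A ⊤ := by
  have hNmem : ∀ a : A, a ∈ LinearMap.ker (π : A →ₗ[K] A') ↔ π a = 0 := fun a => LinearMap.mem_ker
  refine ⟨⟨?_, ?_, ?_⟩, ?_⟩
  · intro x hx
    rw [FI_mem] at hx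
    exact (FI_mem _ _).2 ⟨hx.1, Submodule.mem_top⟩
  · rw [Submodule.mul_le]
    intro x hx y hy
    rw [FI_mem] at hx hy ⊢
    refine ⟨?_, ?_⟩
    · rw [Unitization.fst_mul, hx.1, zero_mul]
    · rw [Unitization.snd_mul, hx.1, hy.1, zero_smul, zero_smul, zero_add, zero_add, hNmem, map_mul,
        (hNmem _).1 hy.2, mul_zero]
  · rw [Submodule.mul_le]
    intro x hx y hy
    rw [FI_mem] at hx hy ⊢
    refine ⟨?_, ?_⟩
    · rw [Unitization.fst_mul, hx.1, zero_mul]
    · rw [Unitization.snd_mul, hx.1, hy.1, zero_smul, zero_smul, zero_add, zero_add, hNmem, map_mul,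
        (hNmem _).1 hx.2, zero_mul]
  · intro h
    obtain ⟨b, hb⟩ := exists_ne (0 : A')
    obtain ⟨a, rfl⟩ := hπ b
    apply hb
    have h1 : (Unitization.inr a : Unitization K A) ∈
        im K A (LinearMap.ker (π : A →ₗ[K] A')) := by
      rw [h]
      exact (FI_mem _ _).2 ⟨rfl, Submodule.mem_top⟩
    exact (hNmem a).1 ((FI_mem _ _).1 h1).2

theorem FO_inr_fst {x : Unitization K A} (hx : x ∈ im K A ⊤) :
    x = (Unitization.inr x.snd : Unitization K A) := by
  ext
  · exact ((FI_mem _ _).1 hx).1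
  · rfl

end

/-- the theorem on algebras without multiplication operators of finite rank. -/
theorem NFF (hTRA : TRA_stmt.{u, v}) (hNFM : NFM_stmt.{u, max u v})
    (K : Type u) [Field K] [CharZero K] (A : Type v) [NonUnitalRing A] [Module K A]
    [IsScalarTower K A A] [SMulCommClass K A A] (hdim : 1 < Module.rank K A) (hprop : PropNil K A)
    (A' : Type w) [NonUnitalRing A'] [Module K A'] [IsScalarTower K A' A'] [SMulCommClass K A' A']
    [Nontrivial A'] (π : A →ₙₐ[K] A') (hπ : Function.Surjective π)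
    (hfin : ∀ (n : ℕ) (u v : Fin n → Unitization K A'),
      (∃ F : Submodule K (Unitization K A'), FiniteDimensional K F ∧
        ∀ x : A', ∑ i, u i * (Unitization.inr x : Unitization K A') * v i ∈ F) →
      ∀ x : A', ∑ i, u i * (Unitization.inr x : Unitization K A') * v i = 0) :
    Nilp A := by
  classical
  by_contra hnot
  have hcex : Cex K (Unitization K A) (im K A ⊤) := (hTRA K A).1 hdim hprop hnot
  obtain ⟨hT, hTne⟩ := FO_ker π hπ
  refine hNFM K (Unitization K A) (im K A ⊤) hcex _ hT hTne ?_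
  intro n p q _ _ hF x hx
  obtain ⟨F, hFG, hF⟩ := hF
  have hΦ : ∀ y : Unitization K A, FOhom π (Opr n p q y) =
      ∑ i, FOhom π (p i) * FOhom π y * FOhom π (q i) := by
    intro y
    unfold Opr
    rw [map_sum]
    exact Finset.sum_congr rfl fun i _ => by rw [map_mul, map_mul]
  rw [← FOhom_ker, hΦ, FO_inr_fst hx, FOhom_inr]
  refine hfin n (fun i => FOhom π (p i)) (fun i => FOhom π (q i))
    ⟨F.map (FOhom π).toLinearMap, ?_, ?_⟩ _
  · exact Module.Finite.iff_fg.2 (hFG.map _)
  · intro x'
    obtain ⟨a, rfl⟩ := hπ x'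
    rw [← FOhom_inr, ← hΦ]
    have h1 := hF (Unitization.inr a : Unitization K A) ((FI_mem _ _).2 ⟨rfl, Submodule.mem_top⟩)
    obtain ⟨y, hy, t, ht, hyt⟩ := Submodule.mem_sup.1 h1
    refine ⟨y, hy, ?_⟩
    rw [← hyt, map_add, (FOhom_ker π t).2 ht, add_zero]
    rfl

end Pool.Agent.FO
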