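import Pool.Agent.helper66.FO.Fin
import Pool.Agent.helper66.PX.Spec2

/-! # Project FO: the theorem on identities up to finite rank -/

set_option autoImplicit false

noncomputable section

namespace Pool.Agent.FO

open Pool.Agent.NN Pool.Agent.PX

universe u v w

/-- a counterexample does not satisfy a polynomial identity modulo one of the ideals `TT`. -/
theorem FIC (hTRA : TRA_stmt.{u, v}) (hTKP : TKP_stmt.{u, max u v}) (hGEN : GEN_stmt.{u, max u v})
    (hSQ : SQ_stmt.{u, max u v}) (hCQ : CQ_stmt.{u, v}) (hML : ML_stmt.{u, max u v})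
    (K : Type u) [Field K] [CharZero K] (A : Type v) [NonUnitalRing A] [Module K A]
    [IsScalarTower K A A] [SMulCommClass K A A] (hdim : 1 < Module.rank K A) (hprop : PropNil K A)
    (hnot : ¬ Nilp A) (p : FreeAlgebra K ℕ) (hp : p ≠ 0) (l : ℕ)
    (hid : ∀ x : ℕ → Unitization K A, (∀ i, x i ∈ im K A ⊤) →
      FreeAlgebra.lift K x p ∈ TT (im K A ⊤) l) : False := by
  classical
  set 𝒜 : Submodule K (Unitization K A) := im K A ⊤ with h𝒜
  have hcex : Cex K (Unitization K A) 𝒜 := (hTRA K A).1 hdim hprop hnot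
  have hT := hTKP K (Unitization K A) 𝒜 hcex
  obtain ⟨g1, g2, g3⟩ := hGEN K (Unitization K A) 𝒜 hcex
  have hMI : ∃ n : ℕ, MI K (Unitization K A) 𝒜 (TT 𝒜 l) n :=
    hML K (Unitization K A) 𝒜 (TT 𝒜 l) p hp hid
  obtain ⟨n, hMI⟩ := hMI
  have h𝒜id : Two K (Unitization K A) 𝒜 := by
    intro a x hx
    rw [FI_mem] at hx
    constructor
    · rw [FI_mem]
      exact ⟨by rw [Unitization.fst_mul, hx.1, mul_zero], Submodule.mem_top⟩
    · rw [FI_mem]
      exact ⟨by rw [Unitization.fst_mul, hx.1, zero_mul], Submodule.mem_top⟩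
  obtain ⟨z, hz, hzu, k, hk⟩ := hSQ K (Unitization K A) 𝒜 (fun k => TT 𝒜 k) h𝒜id
    (fun k => ⟨FI_two (hT k).1, (hT k).1.1, (hT k).2.2.2, (hT k).2.1⟩) g3
    (fun k => (hT k).2.2.1)
    (fun M => ⟨M, fun J hJ hJA hJM => le_sSup ⟨FI_isId hJ hJA, hJM⟩⟩) l n hMI
  -- the elements commuting with everything modulo `TT 𝒜 k`
  have hTk : Two K (Unitization K A) (TT 𝒜 k) := FI_two (hT k).1
  let Z : Submodule K (Unitization K A) :=
    { carrier := {a | a ∈ 𝒜 ∧ ∀ b ∈ 𝒜, a * b - b * a ∈ TT 𝒜 k}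
      add_mem' := by
        rintro a a' ⟨h1, h2⟩ ⟨h3, h4⟩
        refine ⟨Submodule.add_mem _ h1 h3, fun b hb => ?_⟩
        have h5 := Submodule.add_mem _ (h2 b hb) (h4 b hb)
        have h6 : (a + a') * b - b * (a + a') = (a * b - b * a) + (a' * b - b * a') := by
          rw [add_mul, mul_add]; abel
        rw [h6]
        exact h5
      zero_mem' := ⟨Submodule.zero_mem _, fun b _ => by
        rw [zero_mul, mul_zero, sub_zero]; exact Submodule.zero_mem _⟩
      smul_mem' := by
        rintro c a ⟨h1, h2⟩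
        refine ⟨Submodule.smul_mem _ _ h1, fun b hb => ?_⟩
        rw [smul_mul_assoc, mul_smul_comm, ← smul_sub]
        exact Submodule.smul_mem _ _ (h2 b hb) }
  have hZ : Z = 𝒜 := by
    refine (g1 (Set.range z) ?_).2 ?_ Z ?_ ?_ ?_
    · rintro _ ⟨n, rfl⟩
      exact hz n
    · intro k' hk'
      obtain ⟨m, hm⟩ := hzu k'
      exact hm (hk' ⟨m, rfl⟩)
    · intro a ha
      exact ha.1
    · rw [Submodule.mul_le]
      rintro a ⟨h1, h2⟩ b ⟨h3, h4⟩
      refine ⟨(h𝒜id a b h3).1, fun c hc => ?_⟩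
      have h5 : a * b * c - c * (a * b) = a * (b * c - c * b) + (a * c - c * a) * b := by
        noncomm_ring
      rw [h5]
      exact Submodule.add_mem _ (hTk _ _ (h4 c hc)).1 (hTk _ _ (h2 c hc)).2
    · rintro _ ⟨n, rfl⟩
      exact ⟨hz n, fun b hb => hk n b hb⟩
  have hcomm : ∀ a ∈ 𝒜, ∀ b ∈ 𝒜, a * b - b * a ∈ TT 𝒜 k := by
    intro a ha b hb
    have h1 : a ∈ Z := by rw [hZ]; exact ha
    exact h1.2 b hb
  apply hnot
  let T : Submodule K A := (TT 𝒜 k).comap (Unitization.inrHom K K A)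
  have hTmem : ∀ a : A, a ∈ T ↔ (Unitization.inr a : Unitization K A) ∈ TT 𝒜 k := fun a => Iff.rfl
  refine hCQ K A hdim hprop T ?_ ?_ ?_
  · intro a x hx
    rw [hTmem] at hx
    constructor
    · rw [hTmem, Unitization.inr_mul]
      exact (hTk _ _ hx).1
    · rw [hTmem, Unitization.inr_mul]
      exact (hTk _ _ hx).2
  · intro h
    apply (hT k).2.1
    refine le_antisymm (hT k).1.1 ?_
    intro x hx
    rw [FI_mem] at hx
    have h1 : x = (Unitization.inr x.snd : Unitization K A) := by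
      ext
      · exact hx.1
      · rfl
    rw [h1, ← hTmem, h]
    exact Submodule.mem_top
  · intro a b
    rw [hTmem, Unitization.inr_sub, Unitization.inr_mul, Unitization.inr_mul]
    exact hcomm _ ((FI_mem _ _).2 ⟨rfl, Submodule.mem_top⟩) _ ((FI_mem _ _).2 ⟨rfl, Submodule.mem_top⟩)


/-- the theorem on identities up to finite rank. -/
theorem FIR (hTRA : TRA_stmt.{u, v}) (hTKP : TKP_stmt.{u, max u v}) (hGEN : GEN_stmt.{u, max u v})
    (hSQ : SQ_stmt.{u, max u v}) (hCQ : CQ_stmt.{u, v}) (hML : ML_stmt.{u, max u v})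
    (hOPK : OPK_stmt.{u, max u v}) (hNZP : NZP_stmt.{u})
    (K : Type u) [Field K] [CharZero K] (A : Type v) [NonUnitalRing A] [Module K A]
    [IsScalarTower K A A] [SMulCommClass K A A] (hdim : 1 < Module.rank K A) (hprop : PropNil K A)
    (A' : Type w) [NonUnitalRing A'] [Module K A'] [IsScalarTower K A' A'] [SMulCommClass K A' A']
    [Nontrivial A'] (π : A →ₙₐ[K] A') (hπ : Function.Surjective π)
    (n : ℕ) (f g : Fin n → FreeAlgebra K ℕ) (hg : LinearIndependent K g) (hf : ∃ i, f i ≠ 0)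
    (hid : ∀ x : ℕ → A', ∃ F : Submodule K (Unitization K A'), FiniteDimensional K F ∧
      ∀ y : A', ∑ i, FreeAlgebra.lift K (fun j => (Unitization.inr (x j) : Unitization K A')) (f i) *
        (Unitization.inr y : Unitization K A') *
        FreeAlgebra.lift K (fun j => (Unitization.inr (x j) : Unitization K A')) (g i) ∈ F) :
    Nilp A := by
  classical
  by_contra hnot
  have hcex : Cex K (Unitization K A) (im K A ⊤) := (hTRA K A).1 hdim hprop hnot
  obtain ⟨hT, hTne⟩ := FO_ker π hπ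
  obtain ⟨k, hk⟩ := hOPK K (Unitization K A) (im K A ⊤) hcex _ hT hTne n
  refine FIC hTRA hTKP hGEN hSQ hCQ hML K A hdim hprop hnot _ (hNZP K n f g hg hf) k ?_
  intro X hX
  have hlift : ∀ h : FreeAlgebra K ℕ, FreeAlgebra.lift K X
      (FreeAlgebra.lift K (fun j : ℕ => FreeAlgebra.ι K (j + 1)) h) =
      FreeAlgebra.lift K (fun j => X (j + 1)) h := by
    intro h
    have h1 : (FreeAlgebra.lift K X).comp
        (FreeAlgebra.lift K (fun j : ℕ => FreeAlgebra.ι K (j + 1))) =
        FreeAlgebra.lift K (fun j => X (j + 1)) := by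
      apply FreeAlgebra.hom_ext
      funext i
      simp only [Function.comp_apply, AlgHom.coe_comp, FreeAlgebra.lift_ι_apply]
    rw [← h1]
    rfl
  have hval : FreeAlgebra.lift K X (∑ i, FreeAlgebra.lift K (fun j : ℕ => FreeAlgebra.ι K (j + 1)) (f i) *
      FreeAlgebra.ι K 0 * FreeAlgebra.lift K (fun j : ℕ => FreeAlgebra.ι K (j + 1)) (g i)) =
      Opr n (fun i => FreeAlgebra.lift K (fun j => X (j + 1)) (f i))
        (fun i => FreeAlgebra.lift K (fun j => X (j + 1)) (g i)) (X 0) := by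
    unfold Opr
    rw [map_sum]
    refine Finset.sum_congr rfl fun i _ => ?_
    rw [map_mul, map_mul, FreeAlgebra.lift_ι_apply, hlift, hlift]
  rw [hval]
  have hAA : im K A ⊤ * im K A ⊤ ≤ im K A ⊤ := hcex.mul
  refine hk _ _ (fun i => FO_lift _ hAA _ (fun j => hX (j + 1)) _)
    (fun i => FO_lift _ hAA _ (fun j => hX (j + 1)) _) ?_ _ (hX 0)
  obtain ⟨F, hFd, hF⟩ := hid (fun j => π (X (j + 1)).snd)
  obtain ⟨G, hG, hGF⟩ := FO_pre (FOhom π).toLinearMap F
  refine ⟨G, hG, ?_⟩
  intro y hy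
  have hmap : ∀ h : FreeAlgebra K ℕ, FOhom π (FreeAlgebra.lift K (fun j => X (j + 1)) h) =
      FreeAlgebra.lift K (fun j => (Unitization.inr (π (X (j + 1)).snd) : Unitization K A')) h := by
    intro h
    have h1 : (FOhom π).comp (FreeAlgebra.lift K (fun j => X (j + 1))) =
        FreeAlgebra.lift K (fun j => (Unitization.inr (π (X (j + 1)).snd) : Unitization K A')) := by
      apply FreeAlgebra.hom_ext
      funext i
      simp only [Function.comp_apply, AlgHom.coe_comp, FreeAlgebra.lift_ι_apply]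
      conv_lhs => rw [FO_inr_fst (hX (i + 1))]
      rw [FOhom_inr]
    rw [← h1]
    rfl
  have h1 : Opr n (fun i => FreeAlgebra.lift K (fun j => X (j + 1)) (f i))
        (fun i => FreeAlgebra.lift K (fun j => X (j + 1)) (g i)) y ∈
        F.comap (FOhom π).toLinearMap := by
    rw [Submodule.mem_comap]
    have h2 := hF (π y.snd)
    have h3 : (FOhom π).toLinearMap (Opr n (fun i => FreeAlgebra.lift K (fun j => X (j + 1)) (f i))
        (fun i => FreeAlgebra.lift K (fun j => X (j + 1)) (g i)) y) =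
        ∑ i, FreeAlgebra.lift K (fun j => (Unitization.inr (π (X (j + 1)).snd) : Unitization K A')) (f i) *
        (Unitization.inr (π y.snd) : Unitization K A') *
        FreeAlgebra.lift K (fun j => (Unitization.inr (π (X (j + 1)).snd) : Unitization K A')) (g i) := by
      unfold Opr
      rw [map_sum]
      refine Finset.sum_congr rfl fun i _ => ?_
      have h4 : FOhom π y = (Unitization.inr (π y.snd) : Unitization K A') := by
        conv_lhs => rw [FO_inr_fst hy]
        rw [FOhom_inr]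
      rw [AlgHom.toLinearMap_apply, map_mul, map_mul, hmap, hmap, h4]
    rw [h3]
    exact h2
  have h5 : LinearMap.ker (FOhom π).toLinearMap ≤
      im K A (LinearMap.ker (π : A →ₗ[K] A')) := by
    intro z hz
    exact (FOhom_ker π z).1 hz
  exact (sup_le_sup_left h5 G) (hGF h1)

end Pool.Agent.FO
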