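import Pool.Agent.helper32.NN.Spec

/-!
# Project FO (MP_3938c6_al): multiplication operators of finite rank. Module statements.

Row `XX` proves `theorem XX (h1 : AA_stmt ..) … : XX_stmt ..` in the file `Pool/Agent/<seat>/FO/XX.lean`, with
`import Pool.Agent.helper66.FO.Spec`, namespace `Pool.Agent.FO`. Hypotheses: at most the list `uses:`. The rows may also import and
use `Pool.Agent.helper32.NN.All` (the theorems of project NN), `Pool.Agent.helper8.FR.Core` (`FR.FR_main`) and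
`Pool.Agent.helper61.PN.Lin` (`exists_indep`, `rank_open`, `tangent`). Auxiliary lemmas prefixed `XX_`. No `sorry`, no double
quotes, no `convert`/`congr!`. If a statement looks wrong or is false: message helper66 at once.

Setting as in project NN: `U` a unital algebra over the field `K`, `A` a linear subspace closed under multiplication, `Cex K U A`:
`A` is a counterexample; `TT A k` = the sum of all ideals `J` with `J ^ k = ⊥`.
-/

set_option autoImplicit false

open Submodule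

noncomputable section

namespace Pool.Agent.FO

open Pool.Agent.NN

universe u v

/-- the multiplication operator `x ↦ ∑ p_i x q_i`. -/
def Opr {U : Type v} [Ring U] (n : ℕ) (p q : Fin n → U) (x : U) : U := ∑ i, p i * x * q i

/-! ## Part 1: operators of finite rank and bounded length -/

/-- **OPK** (medium/LONG). Operators of bounded length and of finite rank modulo `T` have images in one `TT A k`.
uses: `FR.FR_main` (for a proper ideal `T'` there is an ideal `J ≠ A` containing all `y ∈ A` with `y A y ⊆ F ⊔ T'`, `F` finitely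
generated), TKP, GEN, SUM (or TWO) of project NN.
PROOF. Induction on `n` (`T` fixed). `n = 0`: `Opr = 0`. Step: let `k` be the number for `n`, let `T' = T ⊔ TT A k`: an ideal, `≠ A` (TWO:
`A` is not the sum of two proper subalgebras). By FR_main for `T'` there is a proper ideal `J ∋` all `y ∈ A` with `y A y ⊆ F ⊔ T'`; by
GEN `J ≤ TT A k'` for some `k'`. Claim: `k'` works for `n + 1`. Let `t = Opr (n+1) p q`, `t x ∈ F ⊔ T` for all `x ∈ A`. For `j : Fin (n+1)` and
`y ∈ A` put `s x = t (x * q j * y) - t x * y * q j = ∑_i p i * x * (q j * y * q i - q i * y * q j)`: the term `i = j` vanishes, so `s` is an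
operator of length `n` (`Fin.sum_univ_succAbove _ j`, coefficients `p (j.succAbove i)`, `q j * y * q (j.succAbove i) - …`, in `A`), and
`s x ∈ F' ⊔ T` with `F' = F ⊔ F * span {y * q j}` finitely generated. So `s x ∈ TT A k` for all `x ∈ A`, hence
`t x * y * q j ∈ F ⊔ T'` for all `x, y ∈ A`, all `j` (as `x * q j * y ∈ A`; this does not use `F'`). Now fix `x ∈ A` and `r = t x ∈ A`. For `a ∈ A`:
`r * a * r = ∑_j t x * (a * p j * x) * q j ∈ F ⊔ T'` (`a * p j * x ∈ A`). So `r ∈ J ≤ TT A k'`. -/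
def OPK_stmt : Prop := ∀ (K : Type u) (U : Type v) [Field K] [Ring U] [Algebra K U] (A : Submodule K U),
  Cex K U A → ∀ T : Submodule K U, IsId A T → T ≠ A → ∀ n : ℕ, ∃ k : ℕ, ∀ p q : Fin n → U,
  (∀ i, p i ∈ 1 ⊔ A) → (∀ i, q i ∈ 1 ⊔ A) → (∃ F : Submodule K U, F.FG ∧ ∀ x ∈ A, Opr n p q x ∈ F ⊔ T) →
  ∀ x ∈ A, Opr n p q x ∈ TT A k

/-- **NZP** (medium). The polynomial `∑ f_i X_0 g_i` is not zero (the variables of `f_i`, `g_i` are shifted by one). uses: nothing.
PROOF. `FreeAlgebra.equivMonoidAlgebraFreeMonoid` (basis of words `List ℕ`). Let `φ : F → K[words]`. The coefficient of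
`∑ σ(f_i) X_0 σ(g_i)` at the word `w.map (·+1) ++ 0 :: v.map (·+1)` is `∑_i f_i(w) g_i(v)` (the letter `0` occurs exactly once in the words
of `σ(f) X_0 σ(g)`, so a word determines its two parts). If it is zero for all `w, v` then for every `w` `∑_i f_i(w) • g_i = 0`, so
`f_i(w) = 0` for all `i` by linear independence, so all `f_i = 0`. Alternative without coefficients: apply an algebra homomorphism
`F → Module.End K (F ⊗ F)` or `F → End (List ℕ → …)` that makes the element act on a suitable vector as `∑ f_i ⊗ g_i`, for instance on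
`F ⊕ (F ⊗ F)`: `X_{j+1}` acts on `F` and on the left factor of `F ⊗ F` by left multiplication with `X_j`, and `X_0` sends `g ∈ F` to
`1 ⊗ g ∈ F ⊗ F` (and `F ⊗ F` to `0`); the element sends `1 ∈ F` to `∑ f_i ⊗ g_i`. -/
def NZP_stmt : Prop := ∀ (K : Type u) [Field K] (n : ℕ) (f g : Fin n → FreeAlgebra K ℕ),
  LinearIndependent K g → (∃ i, f i ≠ 0) →
  ∑ i, FreeAlgebra.lift K (fun j : ℕ => FreeAlgebra.ι K (j + 1)) (f i) * FreeAlgebra.ι K 0 *
    FreeAlgebra.lift K (fun j : ℕ => FreeAlgebra.ι K (j + 1)) (g i) ≠ 0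

/-! ## Part 2: algebras without multiplication operators of finite rank -/

/-- the value of the word `m` in the letters `0 ↦ y`, `i + 1 ↦ b i`. -/
def val {U : Type v} [Ring U] {d : ℕ} (b : Fin d → U) (y : U) (m : List (Fin (d + 1))) : U :=
  (m.map (Fin.cons y b : Fin (d + 1) → U)).prod

/-- the derivative of the word `m` at `y` in the direction `y'`. -/
def DD {U : Type v} [Ring U] {d : ℕ} (b : Fin d → U) (y y' : U) : List (Fin (d + 1)) → U
  | [] => 0
  | a :: m => (if a = 0 then y' else 0) * val b y m + (Fin.cons y b : Fin (d + 1) → U) a * DD b y y' m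

/-- **LTW** (medium). Words along a line, their derivative. uses: nothing.
PROOF. Induction on `m`. (1) `val (a :: m) = c_a * val m` with `c_a = y + u y'` (`a = 0`) or constant: multiply the expansions.
(2) `DD b y y (0 :: m) = y * val m + y * DD m = (count + 1) • …`. (3) `DD` is a sum of operators `x ↦ P x Q` with `P, Q` products of
letters (elements of `1 ⊔ A`); sums and one-sided multiples of operators are operators (`Fin.append`/`Fin.cons`, `Fin.sum_univ_succ`). -/
def LTW_stmt : Prop := ∀ (K : Type u) (U : Type v) [Field K] [Ring U] [Algebra K U] (A : Submodule K U),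
  A * A ≤ A → ∀ (d : ℕ) (b : Fin d → U) (y : U), (∀ i, b i ∈ A) → y ∈ A → ∀ m : List (Fin (d + 1)),
  (∀ y' : U, ∃ (M : ℕ) (g : ℕ → U), 0 < M ∧ g 0 = DD b y y' m ∧
    ∀ c : K, val b (y + c • y') m = val b y m + c • ∑ i ∈ Finset.range M, c ^ i • g i) ∧
  DD b y y m = (m.count 0 : K) • val b y m ∧
  (∃ (n : ℕ) (p q : Fin n → U), (∀ i, p i ∈ 1 ⊔ A) ∧ (∀ i, q i ∈ 1 ⊔ A) ∧ ∀ y' : U, DD b y y' m = Opr n p q y')

/-- **NFS** (LONG). One step. uses: LTW, and PER, FDI, SUM, TKP, GEN of project NN; `rank_open`, `tangent` of `helper61.PN.Lin`.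
PROOF. `A * A = A` (PER), so `A = A * A * A ≤ ⨆_m A * TT A m * A`; as `TT A k ≠ A`, for some `m` the ideal `J = A * TT A m * A` is not `≤ TT A k`
(`TT A m` is increasing in `m` with union `A`). `A * J = J`, `J` is a nilpotent ideal. Let `b_1, …, b_d ∈ B` span `B`, and `I₀` a nilpotent
ideal containing `J` and `B` (FDI, SUM): all products of more than `ℓ` elements of `I₀` vanish. Words: lists over `Fin (d + 1)` of
length `≤ ℓ` containing `0`: a finite set; as index type one may take `{x : Σ n : Fin (ℓ + 1), (Fin n → Fin (d + 1)) // ∃ i, x.2 i = 0}` and `List.ofFn`.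
`W` = functions on it, `Φ_y : W → U` linear, `w ↦ ∑ w(m) • val b y m`. For `y ∈ J` the space `B_y = B ⊔ range Φ_y` satisfies `B_y * B_y ≤ B_y ⊔ T`
(products of words are words or `0`; `B * B ≤ B ⊔ T`; `(B ⊔ T)`-parts: `T` is an ideal), `y ∈ B_y`, `B_y ≤ A`, `B_y` finitely generated. Let
`V₀ = B ⊔ T ⊔ K z` and choose `y ∈ J` with maximal rank of `Φ̄_y : W → U ⧸ V₀` (bounded by `dim W`) and `y ∉ TT A k`: take a maximizer `y₁` and
`η ∈ J`, `η ∉ TT A k`; if `y₁ ∈ TT A k` use `rank_open` along `y₁ + c η`, `c ≠ 0`. Claim `z ∉ B_y ⊔ T` (so `B' = B_y` works). Otherwise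
`z = β + Φ_y w` with `β ∈ B ⊔ T`. More generally let `w ∈ W` with `Φ_y w ∈ V₀`. For `y' ∈ J`: `tangent` along `y + c y'` (with the expansions of LTW;
`Φ̄_{y + c y'} w = c • (∑ …)` because `Φ̄_y w = 0`; maximality of the rank) gives `Δ_w y' := ∑ w(m) • DD b y y' m ∈ E := range Φ_y ⊔ V₀`. So for `j ∈ J` and
`x ∈ A` (`x j ∈ J`) `Δ_w (x j) ∈ F ⊔ T`, `F = range Φ_y ⊔ B ⊔ K z`; the map `x ↦ Δ_w (x j)` is an `Opr` with coefficients in `1 ⊔ A` (LTW (3), scalars into `p`),
so `Δ_w (x j) ∈ T` by the hypothesis. `y ∈ J = A * J` is a sum of elements `x j` and `Δ_w` is linear, so `Δ_w y ∈ T`; by LTW (2) `Δ_w y = Φ_y (E w)` with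
`(E w)(m) = (m.count 0) • w m`. So `Φ_y (E w) ∈ T ≤ V₀`, and we may repeat: `Φ_y (E^i w) ∈ T` for all `i ≥ 1`. The numbers `m.count 0` lie in
`{1, …, ℓ}`; the polynomial `Q(X) = 1 - ∏_{j=1}^{ℓ} (1 - X/j)` has `Q(0) = 0`, `Q(j) = 1`, so `w = Q(E) w` and `Φ_y w ∈ T` (characteristic 0). Hence
`z = β + Φ_y w ∈ B ⊔ T`, contradiction. -/
def NFS_stmt : Prop := ∀ (K : Type u) (U : Type v) [Field K] [CharZero K] [Ring U] [Algebra K U] (A : Submodule K U),
  Cex K U A → ∀ T : Submodule K U, IsId A T →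
  (∀ (n : ℕ) (p q : Fin n → U), (∀ i, p i ∈ 1 ⊔ A) → (∀ i, q i ∈ 1 ⊔ A) →
    (∃ F : Submodule K U, F.FG ∧ ∀ x ∈ A, Opr n p q x ∈ F ⊔ T) → ∀ x ∈ A, Opr n p q x ∈ T) →
  ∀ B : Submodule K U, B ≤ A → B.FG → B * B ≤ B ⊔ T → ∀ z ∈ A, z ∉ B ⊔ T → ∀ k : ℕ,
  ∃ B' : Submodule K U, B ≤ B' ∧ B' ≤ A ∧ B'.FG ∧ B' * B' ≤ B' ⊔ T ∧ z ∉ B' ⊔ T ∧ ¬ B' ≤ TT A k

/-- **NFM** (medium). A counterexample has, modulo every proper ideal, a multiplication operator of finite nonzero rank.
uses: NFS, GEN.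
PROOF. `z ∈ A`, `z ∉ T`. `B_0 = ⊥`, and `B_{k+1}` from NFS with `k`. `S = (⨆ B_k) ⊔ T` is closed under multiplication (directed union; `T` an
ideal), `≤ A`, `z ∉ S`. So `S ≠ A` and `S ≤ TT A k` for some `k` (GEN), but `B_{k+1} ≤ S` is not `≤ TT A k`. -/
def NFM_stmt : Prop := ∀ (K : Type u) (U : Type v) [Field K] [CharZero K] [Ring U] [Algebra K U] (A : Submodule K U),
  Cex K U A → ∀ T : Submodule K U, IsId A T → T ≠ A →
  (∀ (n : ℕ) (p q : Fin n → U), (∀ i, p i ∈ 1 ⊔ A) → (∀ i, q i ∈ 1 ⊔ A) →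
    (∃ F : Submodule K U, F.FG ∧ ∀ x ∈ A, Opr n p q x ∈ F ⊔ T) → ∀ x ∈ A, Opr n p q x ∈ T) → False

end Pool.Agent.FO
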